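import Pool.Agent.H.MP_dfcdcf_gt.Chain

namespace Pool.Agent.Results.MP_dfcdcf_gt.Q1

open Pool.Agent.H.MP_dfcdcf_gt

theorem result : ∃ D E : Gauss 2, IsMonotone D ∧ IsMonotone E ∧
    Relation.EqvGen (fun A B => VMove A B ∨ SelfChange A B) D E ∧
    ¬ Relation.EqvGen (fun A B => IsMonotone A ∧ IsMonotone B ∧ VMove A B) D E :=
  ⟨d0, d16, mono0, mono16, chain, not_rel _ fun _ _ => Or.inl⟩

end Pool.Agent.Results.MP_dfcdcf_gt.Q1
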