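import Pool.Agent.H.MP_dfcdcf_gt.Chain

namespace Pool.Agent.Results.MP_dfcdcf_gt.Q2

open Pool.Agent.H.MP_dfcdcf_gt

theorem result : ∃ D E : Gauss 2, IsMonotone D ∧ IsMonotone E ∧
    Relation.EqvGen (fun A B => WMove A B ∨ SelfChange A B) D E ∧
    ¬ Relation.EqvGen (fun A B => IsMonotone A ∧ IsMonotone B ∧ WMove A B) D E :=
  ⟨d0, d16, mono0, mono16, Relation.EqvGen.mono (fun _ _ => Or.imp_left Or.inl) _ _ chain,
    not_rel _ fun _ _ => id⟩

end Pool.Agent.Results.MP_dfcdcf_gt.Q2
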